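import Mathlib

set_option autoImplicit false

namespace Pool.Agent.Y681.WCyc

open Function

/-- tree of depth two: `none` is the root, `some (i, none)` are its children and
`some (i, some j)` are the leaves -/
abbrev W := Option (Fin 4 × Option (Fin 4))

/-- the weights -/
noncomputable def w : W → W → ℝ
  | none, some (_, none) => 1 / 4
  | some (i, none), some (i', some _) => if i = i' then 1 / 4 else 0
  | some (_, some _), none => 2 / 5
  | some (i, some _), some (i', none) => if i = i' then 3 / 5 else 0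
  | _, _ => 0

lemma w_none {y : W} (h : w none y ≠ 0) : ∃ a, y = some (a, none) ∧ w none y = 1 / 4 := by
  rcases y with _ | ⟨a, _ | b⟩
  · simp [w] at h
  · exact ⟨a, rfl, rfl⟩
  · simp [w] at h

lemma w_child {a : Fin 4} {y : W} (h : w (some (a, none)) y ≠ 0) :
    ∃ b, y = some (a, some b) ∧ w (some (a, none)) y = 1 / 4 := by
  rcases y with _ | ⟨a', _ | b⟩
  · simp [w] at h
  · simp [w] at h
  · by_cases ha : a = a'
    · subst ha
      exact ⟨b, rfl, by simp [w]⟩
    · simp [w, ha] at h

lemma w_leaf {a b : Fin 4} {y : W} (h : w (some (a, some b)) y ≠ 0) :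
    (y = none ∧ w (some (a, some b)) y = 2 / 5) ∨
      (y = some (a, none) ∧ w (some (a, some b)) y = 3 / 5) := by
  rcases y with _ | ⟨a', _ | b'⟩
  · exact Or.inl ⟨rfl, rfl⟩
  · by_cases ha : a = a'
    · subst ha
      exact Or.inr ⟨rfl, by simp [w]⟩
    · simp [w, ha] at h
  · simp [w] at h

lemma sum_fin3 (f : Fin (1 + 2) → ℝ) (i : Fin (1 + 2)) :
    ∑ j, f j = f i + f (i + 1) + f (i + 1 + 1) := by
  rw [Fin.sum_univ_three]
  fin_cases i
  · rfl
  · show f 0 + f 1 + f 2 = f 1 + f 2 + f 0
    ring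
  · show f 0 + f 1 + f 2 = f 2 + f 0 + f 1
    ring

lemma sum_fin2 (f : Fin (0 + 2) → ℝ) (i : Fin (0 + 2)) : ∑ j, f j = f i + f (i + 1) := by
  rw [Fin.sum_univ_two]
  fin_cases i
  · rfl
  · show f 0 + f 1 = f 1 + f 0
    ring

lemma succ_val (k : ℕ) (i : Fin (k + 2)) :
    (i.val + 1 = k + 2 ∧ (i + 1).val = 0) ∨ (i.val + 1 < k + 2 ∧ (i + 1).val = i.val + 1) := by
  have h := Fin.val_add_one (n := k + 1) i
  have h1 := i.isLt
  by_cases hi : i = Fin.last (k + 1)
  · left
    rw [if_pos hi] at h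
    refine ⟨?_, h⟩
    rw [hi]
    simp
  · right
    rw [if_neg hi] at h
    refine ⟨?_, h⟩
    by_contra h2
    exact hi (Fin.ext (by simp; omega))

lemma two_period (k : ℕ) (i : Fin (k + 2)) (h : i + 1 + 1 = i) : k = 0 := by
  have h1 := succ_val k i
  have h2 := succ_val k (i + 1)
  have h3 := congrArg Fin.val h
  omega

lemma three_period (k : ℕ) (i : Fin (k + 2)) (h : i + 1 + 1 + 1 = i) : k = 1 := by
  have h1 := succ_val k i
  have h2 := succ_val k (i + 1)
  have h4 := succ_val k (i + 1 + 1)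
  have h3 := congrArg Fin.val h
  omega

theorem cyc (k : ℕ) (c : Fin (k + 2) → W) (hc : Injective c)
    (h : ∀ i, w (c i) (c (i + 1)) ≠ 0) : ∑ i, w (c i) (c (i + 1)) < 1 := by
  by_cases hr : ∃ i, c i = none
  · obtain ⟨i, hi⟩ := hr
    have h0 := h i
    have e1 : w (c i) (c (i + 1)) = 1 / 4 := by
      rw [hi] at h0 ⊢
      obtain ⟨a, h1, e1⟩ := w_none h0
      exact e1
    rw [hi] at h0
    obtain ⟨a, h1, -⟩ := w_none h0
    have h2 := h (i + 1)
    have e2 : w (c (i + 1)) (c (i + 1 + 1)) = 1 / 4 := by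
      rw [h1] at h2 ⊢
      obtain ⟨b, h3, e2⟩ := w_child h2
      exact e2
    rw [h1] at h2
    obtain ⟨b, h3, -⟩ := w_child h2
    have h4 := h (i + 1 + 1)
    rw [h3] at h4
    rcases w_leaf h4 with ⟨h5, e3⟩ | ⟨h5, -⟩
    · have h6 : i + 1 + 1 + 1 = i := hc (h5.trans hi.symm)
      have e3' : w (c (i + 1 + 1)) (c (i + 1 + 1 + 1)) = 2 / 5 := by rw [h3]; exact e3
      have hk := three_period k i h6
      subst hk
      rw [sum_fin3 _ i, e1, e2, e3']
      norm_num
    · have h6 : i + 1 + 1 + 1 = i + 1 := hc (h5.trans h1.symm)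
      have h7 : i + 1 + 1 = i := by
        have := add_right_cancel h6
        exact this
      rw [h7, hi] at h3
      exact absurd h3 (by simp)
  · push Not at hr
    have key : ∀ i, (∃ a, c i = some (a, none)) → ∑ i, w (c i) (c (i + 1)) < 1 := by
      rintro i ⟨a, h1⟩
      have h2 := h i
      have e2 : w (c i) (c (i + 1)) = 1 / 4 := by
        rw [h1] at h2 ⊢
        obtain ⟨b, h3, e2⟩ := w_child h2
        exact e2
      rw [h1] at h2
      obtain ⟨b, h3, -⟩ := w_child h2
      have h4 := h (i + 1)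
      have h4' := h4
      rw [h3] at h4
      rcases w_leaf h4 with ⟨h5, -⟩ | ⟨h5, e3⟩
      · exact absurd h5 (hr _)
      · have h6 : i + 1 + 1 = i := hc (h5.trans h1.symm)
        have e3' : w (c (i + 1)) (c (i + 1 + 1)) = 3 / 5 := by rw [h3]; exact e3
        have hk := two_period k i h6
        subst hk
        rw [sum_fin2 _ i, e2, e3']
        norm_num
    rcases hc0 : c 0 with _ | ⟨a, _ | b⟩
    · exact absurd hc0 (hr 0)
    · exact key 0 ⟨a, hc0⟩
    · have h4 := h 0
      rw [hc0] at h4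
      rcases w_leaf h4 with ⟨h5, -⟩ | ⟨h5, -⟩
      · exact absurd h5 (hr _)
      · exact key _ ⟨a, h5⟩

theorem cyc' (k : ℕ) (c : Fin (k + 2) → W) (hc : Injective c)
    (h : ∀ i, w (c (i + 1)) (c i) ≠ 0) : ∑ i, w (c (i + 1)) (c i) < 1 := by
  have h1 := cyc k (fun i => c (-i)) (fun a b hab => neg_injective (hc hab)) (by
    intro i
    have h2 := h (-(i + 1))
    have e : -(i + 1) + 1 = -i := by
      rw [neg_add, add_assoc, neg_add_cancel, add_zero]
    rw [e] at h2
    exact h2)
  have h2 : ∑ i, w (c (i + 1)) (c i) = ∑ i : Fin (k + 2), w (c (-i)) (c (-(i + 1))) := by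
    have e := Equiv.sum_comp ((Equiv.neg (Fin (k + 2))).trans (Equiv.addRight (-1 : Fin (k + 2))))
      (fun i => w (c (i + 1)) (c i))
    rw [← e]
    refine Finset.sum_congr rfl ?_
    intro i _
    have e1 : ((Equiv.neg (Fin (k + 2))).trans (Equiv.addRight (-1 : Fin (k + 2)))) i = -i + -1 := rfl
    rw [e1]
    have e2 : -i + -1 + 1 = -i := by rw [add_assoc, neg_add_cancel, add_zero]
    have e3 : -(i + 1) = -i + -1 := neg_add i 1
    rw [e2, e3]
  rw [h2]
  exact h1

/-- the vertex set -/
abbrev V := Bool × W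

/-- is a leaf -/
def leaf : W → Bool
  | some (_, some _) => true
  | _ => false

/-- the weights of the digraph: the reverse of the tree, the tree, and arcs joining the two copies
of a leaf -/
noncomputable def p : V → V → ℝ
  | (true, x), (true, y) => w x y
  | (false, x), (false, y) => w y x
  | (false, x), (true, y) => if x = y ∧ leaf x = true then 3 / 4 else 0
  | (true, _), (false, _) => 0

lemma w_bound (x y : W) : 0 ≤ w x y ∧ w x y ≤ 1 := by
  rcases x with _ | ⟨a, _ | b⟩ <;> rcases y with _ | ⟨a', _ | b'⟩ <;> simp only [w] <;>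
    (try split_ifs) <;> norm_num

lemma p_bound (x y : V) : 0 ≤ p x y ∧ p x y ≤ 1 := by
  rcases x with ⟨_ | _, x⟩ <;> rcases y with ⟨_ | _, y⟩ <;> simp only [p]
  · exact w_bound y x
  · split_ifs <;> norm_num
  · norm_num
  · exact w_bound x y

lemma p_self (x : V) : p x x = 0 := by
  rcases x with ⟨_ | _, _ | ⟨a, _ | b⟩⟩ <;> simp [p, w]

lemma w_out (x : W) : 1 ≤ ∑ y, w x y := by
  rcases x with _ | ⟨a, _ | b⟩
  · simp [Fintype.sum_option, Fintype.sum_prod_type, w]
  · simp [Fintype.sum_option, Fintype.sum_prod_type, w]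
  · simp [Fintype.sum_option, Fintype.sum_prod_type, w]
    norm_num

lemma w_in (x : W) : 1 ≤ (∑ y, w y x) + (if leaf x = true then 3 / 4 else 0) := by
  rcases x with _ | ⟨a, _ | b⟩
  · simp [Fintype.sum_option, Fintype.sum_prod_type, w, leaf]
    norm_num
  · simp [Fintype.sum_option, Fintype.sum_prod_type, w, leaf]
    norm_num
  · simp [Fintype.sum_option, Fintype.sum_prod_type, w, leaf]
    norm_num

lemma match_sum (x : W) : ∑ y : W, (if x = y ∧ leaf x = true then (3 / 4 : ℝ) else 0) =
    if leaf x = true then 3 / 4 else 0 := by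
  by_cases h : leaf x = true
  · simp [h]
  · simp [h]

lemma match_sum' (x : W) : ∑ y : W, (if y = x ∧ leaf y = true then (3 / 4 : ℝ) else 0) =
    if leaf x = true then 3 / 4 else 0 := by
  have : ∀ y : W, (if y = x ∧ leaf y = true then (3 / 4 : ℝ) else 0) =
      if x = y ∧ leaf x = true then (3 / 4 : ℝ) else 0 := by
    intro y
    by_cases h : y = x
    · subst h; rfl
    · have h' : ¬ x = y := fun e => h e.symm
      simp [h, h']
  simp_rw [this]
  exact match_sum x

lemma p_out (x : V) : 1 ≤ ∑ y, p x y := by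
  rw [Fintype.sum_prod_type, Fintype.sum_bool]
  rcases x with ⟨_ | _, x⟩
  · have h1 : ∑ y : W, p (false, x) (true, y) = if leaf x = true then 3 / 4 else 0 := match_sum x
    have h2 : ∑ y : W, p (false, x) (false, y) = ∑ y, w y x := rfl
    rw [h1, h2, add_comm]
    exact w_in x
  · have h1 : ∑ y : W, p (true, x) (true, y) = ∑ y, w x y := rfl
    have h2 : ∑ y : W, p (true, x) (false, y) = 0 := by
      have : ∀ y : W, p (true, x) (false, y) = 0 := fun y => rfl
      simp [this]
    rw [h1, h2, add_zero]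
    exact w_out x

lemma p_in (x : V) : 1 ≤ ∑ y, p y x := by
  rw [Fintype.sum_prod_type, Fintype.sum_bool]
  rcases x with ⟨_ | _, x⟩
  · have h1 : ∑ y : W, p (false, y) (false, x) = ∑ y, w x y := rfl
    have h2 : ∑ y : W, p (true, y) (false, x) = 0 := by
      have : ∀ y : W, p (true, y) (false, x) = 0 := fun y => rfl
      simp [this]
    rw [h1, h2, zero_add]
    exact w_out x
  · have h1 : ∑ y : W, p (false, y) (true, x) = if leaf x = true then 3 / 4 else 0 := match_sum' x
    have h2 : ∑ y : W, p (true, y) (true, x) = ∑ y, w y x := rfl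
    rw [h1, h2]
    exact w_in x

lemma all_of_step (k : ℕ) (P : Fin (k + 2) → Prop) (hstep : ∀ i, P i → P (i + 1))
    (i : Fin (k + 2)) (hi : P i) : ∀ j, P j := by
  have h : ∀ n : ℕ, ∀ j : Fin (k + 2), (j.val = (i.val + n) % (k + 2)) → P j := by
    intro n
    induction n with
    | zero =>
      intro j hj
      have : j = i := by
        apply Fin.ext
        rw [hj, add_zero, Nat.mod_eq_of_lt i.isLt]
      rw [this]
      exact hi
    | succ n ih =>
      intro j hj
      have h1 := ih ⟨(i.val + n) % (k + 2), Nat.mod_lt _ (by omega)⟩ rfl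
      have h2 := hstep _ h1
      have h3 : (⟨(i.val + n) % (k + 2), Nat.mod_lt _ (by omega)⟩ + 1 : Fin (k + 2)) = j := by
        apply Fin.ext
        rw [hj, Fin.val_add, Fin.val_one]
        show ((i.val + n) % (k + 2) + 1) % (k + 2) = (i.val + (n + 1)) % (k + 2)
        rw [Nat.mod_add_mod, add_assoc]
      rwa [h3] at h2
  intro j
  refine h (j.val + (k + 2) - i.val) j ?_
  have h1 := i.isLt
  have h2 := j.isLt
  have : i.val + (j.val + (k + 2) - i.val) = j.val + (k + 2) := by omega
  rw [this, Nat.add_mod_right, Nat.mod_eq_of_lt h2]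

theorem pcyc (k : ℕ) (c : Fin (k + 2) → V) (hc : Injective c)
    (h : ∀ i, p (c i) (c (i + 1)) ≠ 0) : ∑ i, p (c i) (c (i + 1)) < 1 := by
  have hstep : ∀ i, (c i).1 = true → (c (i + 1)).1 = true := by
    intro i hi
    have h1 := h i
    rcases e : c i with ⟨s, x⟩
    rcases e' : c (i + 1) with ⟨s', x'⟩
    rw [e] at hi
    simp only at hi
    subst hi
    rw [e, e'] at h1
    cases s'
    · exact absurd rfl h1
    · rfl
  by_cases hex : ∃ i, (c i).1 = true
  · obtain ⟨i, hi⟩ := hex
    have hall := all_of_step k (fun i => (c i).1 = true) hstep i hi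
    have hc2 : ∀ i, c i = (true, (c i).2) := fun i => Prod.ext (hall i) rfl
    have e : ∀ i, p (c i) (c (i + 1)) = w (c i).2 (c (i + 1)).2 := by
      intro i
      rw [hc2 i, hc2 (i + 1)]
      rfl
    simp_rw [e] at h ⊢
    refine cyc k (fun i => (c i).2) ?_ h
    intro a b hab
    apply hc
    rw [hc2 a, hc2 b]
    simp only at hab
    rw [hab]
  · push Not at hex
    have hc2 : ∀ i, c i = (false, (c i).2) := fun i => Prod.ext (by simpa using hex i) rfl
    have e : ∀ i, p (c i) (c (i + 1)) = w (c (i + 1)).2 (c i).2 := by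
      intro i
      rw [hc2 i, hc2 (i + 1)]
      rfl
    simp_rw [e] at h ⊢
    refine cyc' k (fun i => (c i).2) ?_ h
    intro a b hab
    apply hc
    rw [hc2 a, hc2 b]
    simp only at hab
    rw [hab]

end Pool.Agent.Y681.WCyc
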